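import Mathlib

/-!
# Growth of the space of sections

Three algebraically independent sections `s_0`, `s_1`, `s_2` of a line bundle `L` on `P` give at least
`(k + 1)^2` independent sections of `L^d`, `d = 2k` or `d = 2k + 1`.
-/

namespace Pool.Agent.H31.SX

open MvPolynomial

variable {P : Type} {Sec : ℕ → Submodule ℂ (P → ℂ)} {s : Fin 3 → P → ℂ}

theorem mul_pow_mem (hmul : ∀ i j, ∀ u ∈ Sec i, ∀ v ∈ Sec j, u * v ∈ Sec (i + j))
    (hs : ∀ i, s i ∈ Sec 1) (i : Fin 3) {a : ℕ} {u : P → ℂ} (hu : u ∈ Sec a) :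
    ∀ c : ℕ, u * s i ^ c ∈ Sec (a + c) := by
  intro c
  induction c with
  | zero => simpa using hu
  | succ c ih =>
    rw [pow_succ, ← mul_assoc]
    exact hmul (a + c) 1 _ ih _ (hs i)

theorem pow_mem' (hmul : ∀ i j, ∀ u ∈ Sec i, ∀ v ∈ Sec j, u * v ∈ Sec (i + j))
    (hs : ∀ i, s i ∈ Sec 1) (i : Fin 3) {c : ℕ} (hc : 0 < c) : s i ^ c ∈ Sec c := by
  obtain ⟨d, rfl⟩ : ∃ d, c = 1 + d := ⟨c - 1, by omega⟩
  rw [pow_add, pow_one]
  exact mul_pow_mem hmul hs i (hs i) d

/-- the monomials of degree `a + b + c > 0` -/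
theorem mono_mem (hmul : ∀ i j, ∀ u ∈ Sec i, ∀ v ∈ Sec j, u * v ∈ Sec (i + j))
    (hs : ∀ i, s i ∈ Sec 1) (a b c : ℕ) (h : 0 < a + b + c) :
    s 0 ^ a * s 1 ^ b * s 2 ^ c ∈ Sec (a + b + c) := by
  rcases Nat.eq_zero_or_pos a with rfl | ha
  · rcases Nat.eq_zero_or_pos b with rfl | hb
    · simpa using pow_mem' hmul hs 2 (by omega : 0 < c)
    · rw [pow_zero, one_mul, zero_add]
      exact mul_pow_mem hmul hs 2 (pow_mem' hmul hs 1 hb) c
  · exact mul_pow_mem hmul hs 2 (mul_pow_mem hmul hs 1 (pow_mem' hmul hs 0 ha) b) c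

/-- the exponents of `X_0^a X_1^b X_2^(d-a-b)` -/
noncomputable def ex (d : ℕ) (p : ℕ × ℕ) : Fin 3 →₀ ℕ :=
  Finsupp.single 0 p.1 + Finsupp.single 1 p.2 + Finsupp.single 2 (d - p.1 - p.2)

theorem ex_zero (d : ℕ) (p : ℕ × ℕ) : ex d p 0 = p.1 := by
  simp [ex]

theorem ex_one (d : ℕ) (p : ℕ × ℕ) : ex d p 1 = p.2 := by
  simp [ex]

theorem ex_inj (d : ℕ) : Function.Injective (ex d) := by
  intro p p' h
  have h0 := DFunLike.congr_fun h 0
  have h1 := DFunLike.congr_fun h 1
  rw [ex_zero, ex_zero] at h0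
  rw [ex_one, ex_one] at h1
  exact Prod.ext h0 h1

theorem aeval_ex (d : ℕ) (p : ℕ × ℕ) (c : ℂ) :
    aeval s (monomial (ex d p) c) = c • (s 0 ^ p.1 * s 1 ^ p.2 * s 2 ^ (d - p.1 - p.2)) := by
  rw [aeval_monomial, Algebra.smul_def, ex, Finsupp.prod_add_index', Finsupp.prod_add_index',
    Finsupp.prod_single_index, Finsupp.prod_single_index, Finsupp.prod_single_index]
  all_goals first | simp | (intros; rw [pow_add])

theorem hom_ex (d : ℕ) (p : ℕ × ℕ) (c : ℂ) (h : p.1 + p.2 ≤ d) :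
    (monomial (ex d p) c).IsHomogeneous d := by
  apply isHomogeneous_monomial
  rw [ex, map_add, map_add, Finsupp.degree_single, Finsupp.degree_single,
    Finsupp.degree_single]
  omega

/-- **Theorem.** The sections of `L^d`, `d ≥ 2k`, `d > 0`, have dimension at least `(k + 1)^2`. -/
theorem card_le (hmul : ∀ i j, ∀ u ∈ Sec i, ∀ v ∈ Sec j, u * v ∈ Sec (i + j))
    (hs : ∀ i, s i ∈ Sec 1)
    (hind : ∀ (d : ℕ) (G : MvPolynomial (Fin 3) ℂ), G.IsHomogeneous d → G ≠ 0 → aeval s G ≠ 0)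
    (d k : ℕ) (hd : 0 < d) (hk : 2 * k ≤ d) (hfin : Module.Finite ℂ (Sec d)) :
    (k + 1) ^ 2 ≤ Module.finrank ℂ (Sec d) := by
  classical
  let e : Fin (k + 1) × Fin (k + 1) → ℕ × ℕ := fun p => (p.1, p.2)
  have he : Function.Injective e := by
    intro p p' h
    have h1 := congrArg Prod.fst h
    have h2 := congrArg Prod.snd h
    exact Prod.ext (Fin.ext h1) (Fin.ext h2)
  have hle : ∀ p, (e p).1 + (e p).2 ≤ d := fun p => by
    have h1 := p.1.2
    have h2 := p.2.2
    show (p.1 : ℕ) + (p.2 : ℕ) ≤ d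
    omega
  have hmem : ∀ p, s 0 ^ (e p).1 * s 1 ^ (e p).2 * s 2 ^ (d - (e p).1 - (e p).2) ∈ Sec d := by
    intro p
    have h1 := hle p
    have h2 := mono_mem hmul hs (e p).1 (e p).2 (d - (e p).1 - (e p).2) (by omega)
    rwa [show (e p).1 + (e p).2 + (d - (e p).1 - (e p).2) = d by omega] at h2
  let v : Fin (k + 1) × Fin (k + 1) → Sec d := fun p => ⟨_, hmem p⟩
  have hv : LinearIndependent ℂ v := by
    rw [Fintype.linearIndependent_iff]
    intro g hg p0
    by_contra hne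
    let G : MvPolynomial (Fin 3) ℂ := ∑ p, monomial (ex d (e p)) (g p)
    have hG : G.IsHomogeneous d := by
      apply IsHomogeneous.sum
      intro p _
      exact hom_ex d _ _ (hle p)
    have hG0 : G ≠ 0 := by
      intro h
      have h1 : coeff (ex d (e p0)) G = g p0 := by
        rw [show G = ∑ p, monomial (ex d (e p)) (g p) from rfl, coeff_sum]
        rw [Finset.sum_eq_single p0]
        · rw [coeff_monomial, if_pos rfl]
        · intro p _ hp
          rw [coeff_monomial, if_neg]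
          intro h2
          exact hp (he (ex_inj d h2))
        · intro h2
          exact absurd (Finset.mem_univ _) h2
      rw [h, coeff_zero] at h1
      exact hne h1.symm
    apply hind d G hG hG0
    have h2 : ((∑ p, g p • v p : Sec d) : P → ℂ) = 0 := by rw [hg]; rfl
    rw [show G = ∑ p, monomial (ex d (e p)) (g p) from rfl, map_sum]
    rw [← h2, Submodule.coe_sum]
    exact Finset.sum_congr rfl fun p _ => by rw [aeval_ex]; rfl
  have h := hv.fintype_card_le_finrank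
  rw [Fintype.card_prod, Fintype.card_fin] at h
  rw [pow_two]
  exact h

end Pool.Agent.H31.SX
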