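import Pool.Agent.H35.OP.Main

/-!
# The Iitaka fibration of a nef line bundle, for plain data

The same fields as in `Pool.Agent.H35.OP.Iit`, but for the numbers `h0 i = h^0(i L)`, the proposition
`Sa` (`L` is semiample) and the degrees `top i = L^i . A^(n - i)`.
-/

namespace Pool.Agent.H31.SX

open Pool.Agent.H31.ND Pool.Agent.H35.OP

/-- THE IITAKA FIBRATION of a nef line bundle `L` on a projective manifold `X` of dimension `n ≥ 2` with
`K_X ~ 0`. A positive multiple of `L` has a section. `h0 i` is the dimension of `H^0(X, i L)`, `Sa` means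
that `L` is semiample, `top i` is the degree `L^i . A^(n - i)` for an ample `A`, and zero for `i > n`. Let
`|m L|` define the Iitaka fibration, with the number `m` chosen such that its general fibres are
connected, and let `X' → X` be a composition of blow ups with smooth centres contained in the base locus
such that the pull back of `m L` is `M + N`, `M = f^* H` without base points, `f : X' → B ⊆ ℙ^s`
surjective of relative dimension `n - b`, and the support of `N` has simple normal crossings and contains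
all exceptional divisors (HIRONAKA). -/
structure Iit (n : ℕ) (h0 : ℕ → ℕ) (Sa : Prop) (top : ℕ → ℝ) where
  /-- the Iitaka dimension -/
  b : ℕ
  upper : ∃ C : ℝ, ∀ i : ℕ, 0 < i → (h0 i : ℝ) ≤ C * i ^ b
  m : ℕ
  /-- the degree `L^i . M^j . A'^(n - i - j)` on `X'`, for an ample `A'`; zero for `i + j > n` -/
  I : ℕ → ℕ → ℝ
  I_nonneg : ∀ i j, 0 ≤ I i j
  /-- `L`, `M`, `A'` are nef and `m L - M = N` is effective -/
  I_le : ∀ i j, i + j + 1 ≤ n → I i (j + 1) ≤ m * I (i + 1) j
  I_top : ∀ i, top i = 0 → I i 0 = 0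
  top_big : ∀ i, n < i → top i = 0
  /-- KAWAMATA: `K_X ~ 0`, so a nef and abundant line bundle is semiample -/
  kawamata : top (b + 1) = 0 → Sa
  /-- base point free theorem -/
  bpf : top n ≠ 0 → Sa
  /-- HODGE INDEX theorem for mixed products: `M^b` is a positive multiple of the class of the general
  fibre `F` of `f`; if the degree of `L` on `F` is zero, then `L` is numerically trivial on `F`, and the
  numerical dimension of `L` is at most `dim B = b` -/
  easy : b + 1 ≤ n → I 1 b = 0 → top (b + 1) = 0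
  /-- Let `n - b ≥ 2`, `L^2 . M^b . A'^(n-b-2) = 0` and `L . M^b . A'^(n-b-1) ≠ 0`. A very general fibre
  `F` of `f` is a projective manifold. The restriction `G_F` of `N` to `F` is nef, since the line bundle
  of `N` is `m L` on `F`, not zero, and `G_F^2` is numerically trivial; the canonical divisor of `X'` is
  effective with support contained in the support of `N`, so by adjunction the same is true for `F` and
  `G_F`. The connected components of `G_F` are nef with numerically trivial square: `G` is one of them.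
  The Iitaka dimension of `L` on `F` is zero (IITAKA), so `H^0(F, O(i G))` has dimension at most one. -/
  pair : b + 2 ≤ n → I 2 b = 0 → I 1 b ≠ 0 → ∃ P : Pair (n - b), ∀ i, 0 < i → P.h0 i ≤ 1

/-- The Iitaka dimension of `L` is at least `k`: for some `m > 0` the number `h0 (i m)` grows at least like
`i^k`. -/
def Kod (h0 : ℕ → ℕ) (k : ℕ) : Prop :=
  ∃ m : ℕ, 0 < m ∧ ∃ t : ℝ, 0 < t ∧ ∀ i : ℕ, 0 < i → t * i ^ k ≤ h0 (i * m)

/-- `kappa ≥ k` and `h^0(i L) ≤ C i^b` imply `k ≤ b` -/
theorem Kod.le {h0 : ℕ → ℕ} {k b : ℕ} (hk : Kod h0 k)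
    (hb : ∃ C : ℝ, ∀ i : ℕ, 0 < i → (h0 i : ℝ) ≤ C * i ^ b) : k ≤ b := by
  obtain ⟨m, hm, t, ht, h1⟩ := hk
  obtain ⟨C, h2⟩ := hb
  by_contra hc
  have hc' : b < k := not_le.1 hc
  have h3 : ∀ i : ℕ, 0 < i → t * (i : ℝ) ≤ C * (m : ℝ) ^ b := by
    intro i hi
    have hi' : (0 : ℝ) < i := by exact_mod_cast hi
    have h4 := h1 i hi
    have h5 := h2 (i * m) (Nat.mul_pos hi hm)
    have h6 : t * (i : ℝ) ^ k ≤ C * ((i : ℝ) * m) ^ b := by
      have h7 := h4.trans h5
      push_cast at h7
      exact h7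
    have h8 : (i : ℝ) ^ (b + 1) ≤ (i : ℝ) ^ k :=
      pow_le_pow_right₀ (by exact_mod_cast hi) hc'
    have h9 : t * (i : ℝ) ^ (b + 1) ≤ C * ((i : ℝ) * m) ^ b :=
      (mul_le_mul_of_nonneg_left h8 ht.le).trans h6
    rw [mul_pow, pow_succ] at h9
    have h10 : (i : ℝ) ^ b * (t * i) ≤ (i : ℝ) ^ b * (C * (m : ℝ) ^ b) := by
      nlinarith [h9]
    exact le_of_mul_le_mul_left h10 (pow_pos hi' b)
  obtain ⟨i, hi⟩ := exists_nat_gt (C * (m : ℝ) ^ b / t)
  have h4 := h3 (i + 1) (Nat.succ_pos i)
  rw [div_lt_iff₀ ht] at hi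
  push_cast at h4
  nlinarith

variable {n : ℕ} {h0 : ℕ → ℕ} {Sa : Prop} {top : ℕ → ℝ}

/-- `L^2 . M^b . A^(n-b-2) ≤ m^b L^(b+2) . A^(n-b-2)` -/
theorem Iit.vanish (F : Iit n h0 Sa top) {d : ℕ} (h : top d = 0) :
    ∀ j i, i + j = d → i + j ≤ n → F.I i j = 0 := by
  intro j
  induction j with
  | zero =>
    intro i hi _
    rw [add_zero] at hi
    subst hi
    exact F.I_top _ h
  | succ j ih =>
    intro i hi hn
    have h1 := ih (i + 1) (by omega) (by omega)
    have h2 := F.I_le i j (by omega)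
    rw [h1, mul_zero] at h2
    exact le_antisymm h2 (F.I_nonneg _ _)

/-- **Theorem.** If `kappa(L) ≥ k` and `L^j` is numerically trivial for `j ≥ k + 2`, then `L` is
semiample. -/
theorem Iit.semi (F : Iit n h0 Sa top) {k : ℕ} (hk : Kod h0 k) (h : ∀ j, k + 2 ≤ j → top j = 0) : Sa := by
  have hb : k ≤ F.b := hk.le F.upper
  have ht : top (F.b + 2) = 0 := h _ (by omega)
  by_cases h1 : top (F.b + 1) = 0
  · exact F.kawamata h1
  have h2 : F.b + 1 ≤ n := by
    by_contra hc
    exact h1 (F.top_big _ (not_le.1 hc))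
  rcases Nat.lt_or_ge (F.b + 1) n with h3 | h3
  · have h4 : F.I 2 F.b = 0 := F.vanish ht F.b 2 (by omega) (by omega)
    have h5 : F.I 1 F.b ≠ 0 := fun h => h1 (F.easy h3.le h)
    obtain ⟨P, hP⟩ := F.pair (by omega) h4 h5
    obtain ⟨i, hi, h6⟩ := P.unbounded 1
    exact absurd (hP i hi) (not_le.2 h6)
  · refine F.bpf ?_
    rwa [show n = F.b + 1 by omega]

end Pool.Agent.H31.SX
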