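import Pool.Agent.H31.SX.Growth
import Pool.Agent.H31.SX.Plain
import Pool.Agent.H83.HN.Iface

/-!
# Nef classes of Iitaka dimension at least two with vanishing fourth power
-/

namespace Pool.Agent.H31.SX

open Pool.Agent.H83.HN

variable {n : ℕ} {Lam : Type} [AddCommGroup Lam] {q : Lam → Lam → ℤ}

/-- the dimension of `H^0(i x)` -/
noncomputable def h0 (M : Manifold n Lam q) (x : Lam) (i : ℕ) : ℕ := Module.finrank ℂ (M.Sec (i • x))

theorem kod_two (M : Manifold n Lam q) (x : Lam) (s : Fin 3 → M.P → ℂ) (hs : ∀ i, s i ∈ M.Sec x)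
    (hind : ∀ (d : ℕ) (G : MvPolynomial (Fin 3) ℂ), G.IsHomogeneous d → G ≠ 0 →
      MvPolynomial.aeval s G ≠ 0) : Kod (h0 M x) 2 := by
  refine ⟨2, two_pos, 1, one_pos, fun i hi => ?_⟩
  have h := card_le (Sec := fun i => M.Sec (i • x)) (s := s)
    (fun i j u hu v hv => by
      show u * v ∈ M.Sec ((i + j) • x)
      rw [add_smul]
      exact M.sec_mul _ _ u hu v hv)
    (fun i => by
      show s i ∈ M.Sec (1 • x)
      rw [one_smul]
      exact hs i) hind (i * 2) i (by omega) (by omega) (M.sec_fin _)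
  have h1 : i ^ 2 ≤ h0 M x (i * 2) := (Nat.pow_le_pow_left (Nat.le_succ i) 2).trans h
  rw [one_mul]
  exact_mod_cast h1

/-- **Theorem.** On a sixfold a nef class `x` with `x^4` numerically trivial and three algebraically
independent sections is semiample; `top i` is the degree `x^i . A^(6 - i)`. -/
theorem sixfold (M : Manifold n Lam q) (x : Lam) (top : ℕ → ℝ) (N : ℕ)
    (F : Iit N (h0 M x) (x ∈ M.Semiample) top) (htop : ∀ j, 4 ≤ j → top j = 0)
    (s : Fin 3 → M.P → ℂ) (hs : ∀ i, s i ∈ M.Sec x)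
    (hind : ∀ (d : ℕ) (G : MvPolynomial (Fin 3) ℂ), G.IsHomogeneous d → G ≠ 0 →
      MvPolynomial.aeval s G ≠ 0) : x ∈ M.Semiample :=
  F.semi (kod_two M x s hs hind) htop

end Pool.Agent.H31.SX
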